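import Pool.Agent.Helper64.OF.Main2
import Pool.Agent.Helper64.OF.M_PP
import Pool.Agent.Helper64.OF.M_Rul
import Pool.Agent.Helper64.OF.M_EUP
import Pool.Agent.Helper74.OF.M_TR
import Pool.Agent.Helper74.OF.M_COMB
import Pool.Agent.Helper82.OF.M_GEO
import Pool.Agent.Helper82.OF.M_QV
import Pool.Agent.Helper82.OF.M_QF
import Pool.Agent.Helper35.PM.M_POT
import Pool.Agent.Helper35.PM.D_FIN
import Pool.Agent.Helper35.PM.D_LEAF

/-!
# Triangle-free plane graphs with few odd faces
-/

set_option autoImplicit false

namespace Pool.Agent.Results.MP_7a9ddc_co.FewOddFaces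

open Equiv Equiv.Perm

variable {V : Type}

/-- A rotation system of the simple graph `G`: a permutation `r` of the darts (oriented edges) which
permutes the darts starting at every vertex cyclically. -/
structure Rotation (G : SimpleGraph V) where
  /-- the next dart around the same vertex -/
  r : Perm G.Dart
  fst_r : ∀ d, (r d).fst = d.fst
  trans : ∀ d e : G.Dart, d.fst = e.fst → r.SameCycle d e

namespace Rotation

variable {G : SimpleGraph V} (ρ : Rotation G)

/-- The face permutation: from the dart `(a, b)` go to the dart which follows `(b, a)` around `b`.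
The faces of the embedding are its cycles. -/
def face : Perm G.Dart := ρ.r * SimpleGraph.Dart.symm_involutive.toPerm

/-- the darts `d` and `e` belong to the same face -/
def SameFace (d e : G.Dart) : Prop := ρ.face.SameCycle d e

/-- the length (number of darts) of the face of the dart `d` -/
noncomputable def faceLength (d : G.Dart) : ℕ := Function.minimalPeriod ρ.face d

/-- The rotation system describes an embedding of the (connected) graph in the plane (sphere), by
Euler's formula: number of vertices - number of edges + number of faces = 2. -/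
def IsPlane [Fintype V] [DecidableEq V] [DecidableRel G.Adj] : Prop :=
  (Fintype.card V : ℤ) - (G.edgeFinset.card : ℤ) +
    (Nat.card (Quotient (SameCycle.setoid ρ.face)) : ℤ) = 2

/-- The cycle `v₁ v₂ v₃ v₄` of length four separates the faces of the darts `d` and `e`: there is a
2-colouring `y` of the faces for which the two faces at an edge have different colours exactly if the
edge is an edge of the cycle, and the faces of `d` and `e` have different colours. -/
def Separates (v₁ v₂ v₃ v₄ : V) (d e : G.Dart) : Prop :=
  ∃ y : G.Dart → ZMod 2, (∀ a, y (ρ.face a) = y a) ∧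
    (∀ a : G.Dart, y a.symm ≠ y a ↔ a.edge = s(v₁, v₂) ∨ a.edge = s(v₂, v₃) ∨
      a.edge = s(v₃, v₄) ∨ a.edge = s(v₄, v₁)) ∧
    y d ≠ y e

end Rotation

/-- The paths `p t 0, p t 1, ..., p t (L t)` (one for every `t`) form a spread system in `G`: their
vertices are distinct, two of these vertices are adjacent exactly if they are consecutive vertices of
one of the paths, and they have a common neighbour only if they are equal or have distance two
on one of the paths. (For instance: shortest paths of a triangle-free graph which have pairwise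
distance at least three.) -/
structure PathSystem (G : SimpleGraph V) {k : ℕ} (L : Fin k → ℕ) (p : Fin k → ℕ → V) : Prop where
  distinct : ∀ s t i j, i ≤ L s → j ≤ L t → p s i = p t j → s = t ∧ i = j
  adj : ∀ t i, i < L t → G.Adj (p t i) (p t (i + 1))
  induced : ∀ s t i j, i ≤ L s → j ≤ L t → G.Adj (p s i) (p t j) →
    s = t ∧ (j = i + 1 ∨ i = j + 1)
  common : ∀ s t i j w, i ≤ L s → j ≤ L t → G.Adj (p s i) w → G.Adj (p t j) w →
    s = t ∧ (i = j ∨ j = i + 2 ∨ i = j + 2)

/-- **Triangle-free plane graphs with few or far apart odd faces are near-bipartite.** Let `G` be a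
connected triangle-free graph embedded in the plane, and let the faces of odd length be the `2 k`
different faces of the darts `f t`, `g t` (`t < k`). If `k ≥ 2`, assume in addition that there is a
spread system of paths, path number `t` joining the vertices `(f t).fst` and `(g t).fst` of the two
faces, such that no cycle of length four consisting of three consecutive vertices of path number `t`
and a further vertex `w` separates the odd faces `f s` and `f t` for some `s`. Then the vertex set of
`G` is the union of an independent set and a set which induces a forest, and `G` is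
`{1,2}`-choosable. If `G` has at most two odd faces (`k ≤ 1`), there is no further assumption. -/
theorem result (V : Type) [Fintype V] [DecidableEq V] (G : SimpleGraph V) [DecidableRel G.Adj]
    (hconn : G.Connected) (htf : G.CliqueFree 3) (ρ : Rotation G) (hplane : ρ.IsPlane) (k : ℕ)
    (f g : Fin k → G.Dart)
    (hodd : ∀ d, Odd (ρ.faceLength d) ↔ ∃ t, ρ.SameFace (f t) d ∨ ρ.SameFace (g t) d)
    (hfg : ∀ s t, ¬ ρ.SameFace (f s) (g t)) (hff : ∀ s t, ρ.SameFace (f s) (f t) → s = t)
    (hgg : ∀ s t, ρ.SameFace (g s) (g t) → s = t)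
    (hpaths : 2 ≤ k → ∃ (L : Fin k → ℕ) (p : Fin k → ℕ → V), PathSystem G L p ∧
      (∀ t, p t 0 = (f t).fst ∧ p t (L t) = (g t).fst) ∧
      ∀ t i w, i + 2 ≤ L t → w ≠ p t (i + 1) → G.Adj (p t i) w → G.Adj (p t (i + 2)) w →
        ∀ s, ¬ ρ.Separates (p t i) (p t (i + 1)) (p t (i + 2)) w (f s) (f t)) :
    (∃ I : Set V, (∀ a ∈ I, ∀ b ∈ I, ¬ G.Adj a b) ∧ (G.induce Iᶜ).IsAcyclic) ∧
    ∀ (L : V → Finset ℕ) (A : Finset ℕ), (∀ v, (L v ∩ A).card = 1 ∧ (L v \ A).card = 2) →
      ∃ c : V → ℕ, (∀ v, c v ∈ L v) ∧ ∀ u v, G.Adj u v → c u ≠ c v := by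
  classical
  let R : Pool.Agent.Helper35.PM.Rot G :=
    { r := ρ.r
      fst_r := ρ.fst_r
      trans := ρ.trans
      pl := Pool.Agent.Helper64.OF.hEUP V G ρ.r ρ.fst_r ρ.trans hconn (by
        have h := hplane
        unfold Rotation.IsPlane at h
        exact h) }
  have hTF : Pool.Agent.Helper35.PM.TF G := by
    intro a b c hab hbc hac
    apply htf {a, b, c}
    rw [SimpleGraph.is3Clique_triple_iff]
    exact ⟨hab, hac, hbc⟩
  -- the paths
  have hP : ∃ (L : Fin k → ℕ) (p : Fin k → ℕ → V), Pool.Agent.Helper64.OF.Paths G L p ∧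
      (∀ t, p t 0 = (f t).fst) ∧ (∀ t, p t (L t) = (g t).fst) ∧
      Pool.Agent.Helper64.OF.LocSep R f L p := by
    by_cases hk : 2 ≤ k
    · obtain ⟨L, p, h1, h2, h3⟩ := hpaths hk
      refine ⟨L, p, ⟨h1.adj, h1.distinct, h1.induced, h1.common⟩, fun t => (h2 t).1,
        fun t => (h2 t).2, ?_⟩
      intro t i w y hi hw ha hb hy1 hy2 hy3 s
      by_contra hne
      refine h3 t i w hi ?_ ha hb s ⟨y, hy1, ?_, hne⟩
      · rintro rfl
        exact hw ⟨t, i + 1, by omega, rfl⟩
      · intro d
        constructor
        · intro h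
          by_contra h4
          exact h (hy3 d h4)
        · intro h h4
          have h5 := hy2 d h
          rw [h4] at h5
          revert h5
          generalize y d = z
          revert z
          decide
    · have hst : ∀ s t : Fin k, s = t := by
        intro s t
        apply Fin.ext
        omega
      obtain ⟨L, p, h1, h2, h3⟩ := Pool.Agent.Helper82.OF.hGEO V G k (fun t => (f t).fst)
        (fun t => (g t).fst) hconn hTF (fun s t h => absurd (hst s t) h)
      refine ⟨L, p, h1, h2, h3, ?_⟩
      intro t i w y _ _ _ _ _ _ _ s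
      rw [hst s t]
  obtain ⟨L, p, h1, h2, h3, h4⟩ := hP
  have hNB : Pool.Agent.Helper35.PM.NB G :=
    Pool.Agent.Helper64.OF.nb_of_paths Pool.Agent.Helper35.PM.M_POT.main
      Pool.Agent.Helper64.OF.hPP Pool.Agent.Helper82.OF.hQV Pool.Agent.Helper82.OF.hQF
      Pool.Agent.Helper64.OF.hRul
      (Pool.Agent.Helper64.OF.hDSC2 Pool.Agent.Helper74.OF.TR.hTR Pool.Agent.Helper64.OF.hRul)
      Pool.Agent.Helper74.OF.hCOMB V G R k f g hTF hodd hfg hff hgg L p h1 h2 h3 h4
  obtain ⟨I, hI1, hI2⟩ := hNB
  exact ⟨⟨I, hI1, (Pool.Agent.Helper35.PM.D_LEAF.main V G Iᶜ).1 hI2⟩,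
    fun L A hL => Pool.Agent.Helper35.PM.D_FIN.main V G ⟨I, hI1, hI2⟩ L A hL⟩

end Pool.Agent.Results.MP_7a9ddc_co.FewOddFaces
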